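import Pool.Agent.H104.MZ.Stm

set_option autoImplicit false

/-! JOB EXPD of the project MZ. -/

open Polynomial Finset

namespace Pool.Agent.Q79.MZ

open Pool.Agent.H104.MZ

lemma act_add (n : ℕ → ℤ) (j : ℕ) (F G : ℂ[X]) : act n j (F + G) = act n j F + act n j G := by
  unfold act
  rw [Polynomial.sum_add_index]
  · intro i; simp
  · intro i a b; ring

lemma act_zero (n : ℕ → ℤ) (j : ℕ) : act n j 0 = 0 := by
  unfold act
  exact Polynomial.sum_zero_index _

lemma act_sum {ι : Type*} (s : Finset ι) (n : ℕ → ℤ) (j : ℕ) (F : ι → ℂ[X]) :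
    act n j (∑ i ∈ s, F i) = ∑ i ∈ s, act n j (F i) := by
  classical
  induction s using Finset.induction_on with
  | empty => rw [Finset.sum_empty, Finset.sum_empty, act_zero]
  | insert a s ha ih => rw [Finset.sum_insert ha, Finset.sum_insert ha, act_add, ih]

lemma act_mono (n : ℕ → ℤ) (j u : ℕ) (c : ℂ) : act n j (C c * X ^ u) = c * (n (j + u) : ℂ) := by
  unfold act
  rw [Polynomial.C_mul_X_pow_eq_monomial, Polynomial.sum_monomial_index]
  simp

theorem t_EXPD : S_EXPD := by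
  intro n j Q E h
  have e1 : ((X : ℂ[X]) ^ Q - 1) ^ E =
      ∑ t ∈ range (E + 1), C ((-1 : ℂ) ^ (E - t) * ((E.choose t : ℕ) : ℂ)) * X ^ (Q * t) := by
    rw [sub_eq_add_neg, add_pow]
    refine Finset.sum_congr rfl fun t _ => ?_
    rw [← pow_mul]
    simp only [map_mul, map_pow, map_neg, map_one, map_natCast]
    ring
  rw [e1, act_sum] at h
  simp only [act_mono] at h
  have h2 : (∑ t ∈ range (E + 1), (-1 : ℂ) ^ t * ((E.choose t : ℕ) : ℂ) * (n (j + Q * t) : ℂ)) = 0 := by
    have h3 : (-1 : ℂ) ^ E * (∑ t ∈ range (E + 1), (-1 : ℂ) ^ (E - t) * ((E.choose t : ℕ) : ℂ) *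
        (n (j + Q * t) : ℂ)) = 0 := by rw [h, mul_zero]
    rw [Finset.mul_sum] at h3
    rw [← h3]
    refine Finset.sum_congr rfl fun t ht => ?_
    have ht' : t ≤ E := Nat.lt_succ_iff.1 (Finset.mem_range.1 ht)
    have e2 : (-1 : ℂ) ^ E * (-1) ^ (E - t) = (-1) ^ t := by
      rw [← pow_add]
      have e3 : E + (E - t) = t + 2 * (E - t) := by omega
      rw [e3, pow_add, pow_mul]
      norm_num
    rw [← mul_assoc, ← mul_assoc, e2]
  exact_mod_cast h2

end Pool.Agent.Q79.MZ
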